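import Pool.Agent.H414.V.Low

/-!
# The exact strength of the symmetric powers for the bound `|θ(T_v)| ≤ 2 (N v)^{1/2}`

Let `K` be a number field, and let `θ` be a nontrivial character of the Hecke algebra of weight 2
(or `π` any unitary cuspidal representation of `GL_2(A_K)`) with the Satake parameters
`α_v, β_v`, so that `θ(T_v) = (N v)^{1/2} (α_v + β_v)`. The inequality of the problem at `v` is
`|α_v + β_v| ≤ 2`. For a general field `K` nothing is known for all `v`; the best results on the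
proportion of the `v` which violate the inequality are deduced from the analytic properties of the
`L`-functions `L(s, Sym^{2m} ⊗ ω^{-m})`, `m ≤ k`, at the point `1`. These are available if the
liftings `Sym^i π`, `i ≤ k`, exist and are cuspidal (for `k = 4` they exist by Gelbart-Jacquet,
Kim-Shahidi and Kim, and if one of them is not cuspidal then the inequality holds for all `v`). Let

`W_k(T) = ∑ U_i(T)²`, the sum over the `i ≤ k` with `i ≡ k (mod 2)`, `U_i(λ) = tr Sym^i`.

We determine the exact strength of this method over every number field, for all `k ≥ 1`, `T ≥ 2`: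

(1) the `v` which violate the inequality and satisfy `|α_v + β_v| ≥ T` have an upper Dirichlet
  density of at most `1 / W_k(T)`, for every unitary central character;
(2) the constant `1 / W_k(T)` is optimal, and it stays optimal if one knows in addition that
  `L(s, Sym^n × B)`, `1 ≤ n ≤ 2 k`, is holomorphic and satisfies the Riemann hypothesis for *all*
  twists `B` of a countable family (for instance: all Hecke characters, all Artin representations
  and all cuspidal representations of all the groups `GL_m(A_K)`, up to twists by `|.|^{it}`),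
  and that `|α_v| ≤ (N v)^δ` for all `v`, with a given `δ > 0`: the proportion `1 / W_k(T)` occurs
  for a system of parameters with all these properties, with an error term `O(x^{1/2 + ε})`, and
  also inside of each member of a given countable family of sets of places;
(3) `W_k(2) = (k+1)(k+2)(k+3)/6`.
-/

set_option autoImplicit false

namespace Pool.Agent.Results.MP_4819b8_nt.SymmetricPowerStrength

open Finset Filter Topology NumberField IsDedekindDomain

/-- `U_i(λ)`, the trace of `Sym^i` of a matrix with determinant `1` and trace `λ`. -/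
def U : ℕ → ℝ → ℝ
  | 0, _ => 1
  | 1, x => x
  | n + 2, x => x * U (n + 1) x - U n x

/-- `W_k(T)`, the sum of the `U_i(T)²` with `i ≤ k` and `i ≡ k (mod 2)`. -/
def W (k : ℕ) (T : ℝ) : ℝ := ∑ i ∈ range (k + 1), if (k + i) % 2 = 0 then U i T ^ 2 else 0

/-- The finite places of `K`. -/
abbrev Pl (K : Type*) [Field K] := HeightOneSpectrum (𝓞 K)

/-- The absolute norm of a finite place. -/
noncomputable def nrm {K : Type*} [Field K] [NumberField K] (v : Pl K) : ℕ :=
  Ideal.absNorm v.asIdeal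

/-- The local factor of `L(s, Sym^n)` for the Satake parameters `α, β`: the product of the
`(1 - α^(n-l) β^l z)⁻¹`, `0 ≤ l ≤ n`, where `z = (N v)^{-s}`, or `z = b (N v)^{-s}` for a twist. -/
noncomputable def symFactor (n : ℕ) (α β z : ℂ) : ℂ :=
  ∏ l : Fin (n + 1), (1 - α ^ (n - (l : ℕ)) * β ^ (l : ℕ) * z)⁻¹

variable {K : Type*} [Field K] [NumberField K]

/-- Satake parameters of `GL_2` of unitary type: they have absolute value `1` (the inequality holds)
or they are `ω r, ω r⁻¹` with `|ω| = 1` and `r > 0`; with the Jacquet-Shalika bound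
`|α_v|^k < (N v)^{1/2}` for `Sym^k`. -/
structure IsUnitary (k : ℕ) (α β : Pl K → ℂ) : Prop where
  unitary : ∀ v, (‖α v‖ = 1 ∧ ‖β v‖ = 1) ∨
    ∃ (ω : ℂ) (r : ℝ), ‖ω‖ = 1 ∧ 0 < r ∧ α v = ω * r ∧ β v = ω * (r : ℂ)⁻¹
  bound : ∀ v, ‖α v‖ ^ (2 * k) < nrm v ∧ ‖β v‖ ^ (2 * k) < nrm v

open Classical in
/-- For `1 ≤ m ≤ k` the Euler product of `L^S(s, Sym^{2m} ⊗ ω^{-m})`, `ω = α β`, converges for real
`s > 1` and tends to a limit different from `0` for `s → 1+`. -/
def Known (k : ℕ) (S : Finset (Pl K)) (α β : Pl K → ℂ) : Prop :=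
  ∀ m : ℕ, 1 ≤ m → m ≤ k →
    (∀ s : ℝ, 1 < s → Multipliable fun v => if v ∈ S then (1 : ℂ) else
      symFactor (2 * m) (α v) (β v) ((α v * β v)⁻¹ ^ m * (nrm v : ℂ) ^ (-(s : ℂ)))) ∧
    ∃ c : ℂ, c ≠ 0 ∧ Tendsto (fun s : ℝ => ∏' v, if v ∈ S then (1 : ℂ) else
      symFactor (2 * m) (α v) (β v) ((α v * β v)⁻¹ ^ m * (nrm v : ℂ) ^ (-(s : ℂ)))) (𝓝[>] 1) (𝓝 c)

/-- The inequality of the problem is violated and `|α + β| ≥ T`. -/
def Violates (T : ℝ) (α β : ℂ) : Prop := 2 < ‖α + β‖ ∧ T ≤ ‖α + β‖

/-- The local parameters `B_{v,1}, ..., B_{v,m}` of an `L`-function of degree `m` over `K`, with the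
properties of the `L`-functions of the unitary cuspidal representations of `GL_m(A_K)`: the bound
`|B_{v,l}| ≤ (N v)^θ`, `θ < 1/2`, for almost all `v` (Luo-Rudnick-Sarnak), the mean square bound for
the traces (Rankin-Selberg), and the convergence of the sum of `|B_{v,l}|² (N v)^{-2σ}` for `σ > β`
(one can take `β = 1/2` if the Ramanujan conjecture is true, and always if `m ≤ 3`). -/
structure Twist (K : Type*) [Field K] [NumberField K] where
  m : ℕ
  B : Pl K → Fin m → ℂ
  θ : ℝ
  θ_lt : θ < 1 / 2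
  bad : Finset (Pl K)
  bound : ∀ v ∉ bad, ∀ l, ‖B v l‖ ≤ (nrm v : ℝ) ^ θ
  β : ℝ
  β_ge : 1 / 2 ≤ β
  β_le : β ≤ 1
  second : ∀ σ : ℝ, β < σ → ∀ l, Summable fun v => ‖B v l‖ ^ 2 * (nrm v : ℝ) ^ (-(2 * σ))
  traces : ∀ ε : ℝ, 0 < ε → ∃ C : ℝ, ∀ x : ℕ,
    ∑ᶠ v ∈ {v : Pl K | nrm v < x}, ‖∑ l, B v l‖ ^ 2 ≤ C * ((x : ℝ) + 1) ^ (1 + ε)

theorem U_eq : ∀ (n : ℕ) (x : ℝ), U n x = Pool.Agent.H414.GRC.u n x
  | 0, _ => rfl
  | 1, _ => rfl
  | n + 2, x => by
    rw [U, Pool.Agent.H414.GRC.u_add_two, U_eq (n + 1) x, U_eq n x]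

theorem W_eq (k : ℕ) (T : ℝ) : W k T = Pool.Agent.H414.GRC.W k T := by
  rw [W, Pool.Agent.H414.GRC.W]
  exact Finset.sum_congr rfl fun i _ => by rw [U_eq]

open Pool.Agent.H414.V (blkK places)

theorem nrm_eq : (nrm : Pl K → ℕ) = Pool.Agent.H414.V.nrm := rfl

theorem range_sum (x : ℕ) (f : Pl K → ℝ) :
    ∑ᶠ v ∈ {v : Pl K | nrm v < x}, f v = ∑ m ∈ range x, ∑ v ∈ blkK m, f v := by
  classical
  have h1 : {v : Pl K | nrm v < x} = (((range x).biUnion (blkK (K := K)) : Finset (Pl K)) :
      Set (Pl K)) := by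
    ext v
    simp only [Set.mem_ofPred_eq, Finset.coe_biUnion, Finset.mem_coe, Set.mem_iUnion,
      Finset.mem_range, Pool.Agent.H414.V.mem_blkK]
    constructor
    · intro h
      exact ⟨nrm v, h, rfl⟩
    · rintro ⟨m, h1, h2⟩
      have h3 : nrm v = m := h2
      omega
  rw [h1, finsum_mem_coe_finset, sum_biUnion ((places (K := K)).disj x)]

theorem range_card (x : ℕ) (p : Pl K → Prop) [DecidablePred p] :
    (({v : Pl K | nrm v < x ∧ p v}.ncard : ℕ) : ℝ) =
      ∑ m ∈ range x, ∑ v ∈ blkK m, (if p v then (1 : ℝ) else 0) := by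
  classical
  have h1 : {v : Pl K | nrm v < x ∧ p v} =
      ((((range x).biUnion (blkK (K := K))).filter p : Finset (Pl K)) : Set (Pl K)) := by
    ext v
    simp only [Set.mem_ofPred_eq, Finset.coe_filter, Finset.mem_biUnion,
      Finset.mem_range, Pool.Agent.H414.V.mem_blkK]
    constructor
    · rintro ⟨h1, h2⟩
      exact ⟨⟨nrm v, h1, rfl⟩, h2⟩
    · rintro ⟨⟨m, h1, h2⟩, h4⟩
      have h3 : nrm v = m := h2
      exact ⟨by omega, h4⟩
  rw [h1, Set.ncard_coe_finset, ← sum_biUnion ((places (K := K)).disj x)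
    (f := fun v => if p v then (1 : ℝ) else 0), sum_boole]

/-- The parameters of the helper files. -/
noncomputable def Twist.tw (F : Twist K) :
    Pool.Agent.H414.V.Tw (Pool.Agent.H414.V.nrm (K := K)) (blkK (K := K)) where
  m := F.m
  B := F.B
  θ := F.θ
  θ_lt := F.θ_lt
  bad := F.bad
  bound := F.bound
  β := F.β
  β_ge := F.β_ge
  β_le := F.β_le
  second := F.second
  first := fun ε hε => by
    obtain ⟨C, hC⟩ := F.traces ε hε
    exact ⟨C, fun n => by rw [← range_sum]; exact hC n⟩

/-- The trivial twist. -/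
noncomputable def triv : Pool.Agent.H414.V.Tw (Pool.Agent.H414.V.nrm (K := K)) (blkK (K := K)) where
  m := 1
  B := fun _ _ => 1
  θ := 0
  θ_lt := by norm_num
  bad := ∅
  bound := fun v _ _ => by rw [norm_one, Real.rpow_zero]
  β := 1 / 2
  β_ge := le_rfl
  β_le := by norm_num
  second := fun σ hσ l => by
    have := (places (K := K)).summable_rpow (r := 2 * σ) (by linarith)
    simpa using this
  first := fun ε hε => by
    obtain ⟨C, hC⟩ := (places (K := K)).count
    have hC0 : 0 ≤ C := by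
      have := hC 0
      simp at this
      exact this
    refine ⟨C, fun n => ?_⟩
    have h5 : ∑ m ∈ range n, ∑ v ∈ blkK (K := K) m, ‖∑ _l : Fin 1, (1 : ℂ)‖ ^ 2 =
        ∑ m ∈ range n, ((blkK (K := K) m).card : ℝ) := by
      refine sum_congr rfl fun m _ => ?_
      simp
    rw [h5]
    refine (hC n).trans (mul_le_mul_of_nonneg_left ?_ hC0)
    have h6 : (1 : ℝ) ≤ (n : ℝ) + 1 := by
      have : (0 : ℝ) ≤ n := Nat.cast_nonneg n
      linarith
    calc (n : ℝ) + 1 = ((n : ℝ) + 1) ^ (1 : ℝ) := (Real.rpow_one _).symm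
      _ ≤ _ := Real.rpow_le_rpow_of_exponent_le h6 (by linarith)

/-- The trivial twist and the twists of the sequence. -/
noncomputable def seq (F : ℕ → Twist K) :
    ℕ → Pool.Agent.H414.V.Tw (Pool.Agent.H414.V.nrm (K := K)) (blkK (K := K))
  | 0 => triv
  | i + 1 => (F i).tw

theorem sym_eq (n : ℕ) (α z : ℂ) (hα : α ≠ 0) :
    symFactor n α α⁻¹ z = Pool.Agent.H414.GRC.symFactor n α z := by
  rw [symFactor, Pool.Agent.H414.GRC.symFactor]
  refine Finset.prod_congr rfl fun l _ => ?_
  have h1 : α ^ (n - (l : ℕ)) * α⁻¹ ^ (l : ℕ) = α ^ ((n : ℤ) - 2 * (l : ℤ)) := by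
    have hl := l.2
    rw [inv_pow, ← zpow_natCast, ← zpow_natCast, ← zpow_neg, ← zpow_add₀ hα]
    congr 1
    push_cast [Nat.cast_sub (by omega : (l : ℕ) ≤ n)]
    ring
  rw [h1]

theorem sym_even (m : ℕ) (α β η z : ℂ) (hη : η ^ 2 = α * β) (hη0 : η ≠ 0) :
    symFactor (2 * m) α β ((α * β)⁻¹ ^ m * z) =
      Pool.Agent.H414.GRC.symFactor (2 * m) (α / η) z := by
  have hαβ : α * β ≠ 0 := by
    rw [← hη]
    exact pow_ne_zero 2 hη0
  have hα : α ≠ 0 := left_ne_zero_of_mul hαβ
  have hβ : β = (α / η)⁻¹ * η := by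
    field_simp
    linear_combination -hη
  rw [symFactor, Pool.Agent.H414.GRC.symFactor]
  refine Finset.prod_congr rfl fun l _ => ?_
  congr 2
  have hl := l.2
  set a : ℂ := α / η with ha
  have ha0 : a ≠ 0 := div_ne_zero hα hη0
  have hαa : α = a * η := by
    rw [ha]
    field_simp
  have h2 : (α * β)⁻¹ ^ m = (η ^ (2 * m))⁻¹ := by
    rw [← hη, inv_pow, ← pow_mul]
  have h3 : α ^ (2 * m - (l : ℕ)) * β ^ (l : ℕ) =
      a ^ ((2 * m : ℕ) - 2 * (l : ℤ) : ℤ) * η ^ (2 * m) := by
    rw [hαa, hβ, mul_pow, mul_pow]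
    have h4 : a ^ (2 * m - (l : ℕ)) * a⁻¹ ^ (l : ℕ) = a ^ (((2 * m : ℕ) : ℤ) - 2 * (l : ℤ)) := by
      rw [inv_pow, ← zpow_natCast, ← zpow_natCast, ← zpow_neg, ← zpow_add₀ ha0]
      congr 1
      push_cast [Nat.cast_sub (by omega : (l : ℕ) ≤ 2 * m)]
      ring
    have h5 : η ^ (2 * m - (l : ℕ)) * η ^ (l : ℕ) = η ^ (2 * m) := by
      rw [← pow_add]
      congr 1
      omega
    rw [← h4, ← h5]
    ring
  have h6 : η ^ (2 * m) ≠ 0 := pow_ne_zero _ hη0
  rw [h3, h2]
  field_simp

open Classical in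
/-- **The exact strength of the symmetric powers.** Let `K` be a number field, `k ≥ 1`, `T ≥ 2`.
(1) If `L^S(s, Sym^{2m} ⊗ ω^{-m})`, `1 ≤ m ≤ k`, has a finite limit different from `0` for
`s → 1+`, then the sum of `(N v)^{-s}` over the `v` with `|α_v + β_v| > 2` and `|α_v + β_v| ≥ T` is
at most `1 / W_k(T)` times the sum over all `v`, up to a bounded error.
(2) For every sequence `F` of twists, every sequence `Q` of sets of places and every `δ > 0` there
is a system `α_v, α_v⁻¹` with this property, for all `S`, with `|α_v|^{±1} ≤ T + 1` and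
`|α_v|^{±1} ≤ (N v)^δ`, with `L^S(s, Sym^n × F_i) = exp g(s)`, `g` holomorphic for `Re s > β_i`, for
all `1 ≤ n ≤ 2 k` and all sufficiently large finite sets `S` (all `S`, if `F_i` has parameters of
absolute value `≤ 1`), such that the proportion of the exceptional `v` in `Q_i` is `1 / W_k(T)`,
with an error term `O(x^{1/2+ε})` for the number of the `v` with `N v < x`.
(3) `W_k(2) = (k + 1) (k + 2) (k + 3) / 6`. -/
theorem result (K : Type*) [Field K] [NumberField K] (k : ℕ) (hk : 1 ≤ k) (T : ℝ) (hT : 2 ≤ T) :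
    (∀ (S : Finset (Pl K)) (α β : Pl K → ℂ), IsUnitary k α β → Known k S α β →
      ∃ C : ℝ, ∀ᶠ s : ℝ in 𝓝[>] 1,
        ∑' v : Pl K, (if Violates T (α v) (β v) then (nrm v : ℝ) ^ (-s) else 0) ≤
          (1 / W k T) * ∑' v : Pl K, (nrm v : ℝ) ^ (-s) + C) ∧
    (∀ (F : ℕ → Twist K) (Q : ℕ → Set (Pl K)) (δ : ℝ), 0 < δ → ∃ α : Pl K → ℂ,
      IsUnitary k α (fun v => (α v)⁻¹) ∧
      (∀ S : Finset (Pl K), Known k S α (fun v => (α v)⁻¹)) ∧
      (∀ v, ‖α v‖ ≤ T + 1 ∧ ‖(α v)⁻¹‖ ≤ T + 1) ∧
      (∀ v, ‖α v‖ ≤ (nrm v : ℝ) ^ δ ∧ ‖(α v)⁻¹‖ ≤ (nrm v : ℝ) ^ δ) ∧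
      (∀ i, ∃ S₀ : Finset (Pl K), ((∀ v l, ‖(F i).B v l‖ ≤ 1) → S₀ = ∅) ∧
        ∀ S : Finset (Pl K), S₀ ⊆ S → ∀ n : ℕ, 1 ≤ n → n ≤ 2 * k →
          ∃ g : ℂ → ℂ, DifferentiableOn ℂ g {s | (F i).β < s.re} ∧ ∀ s : ℂ, 1 < s.re →
            HasProd (fun v => if v ∈ S then 1 else
              ∏ j, symFactor n (α v) (α v)⁻¹ ((F i).B v j * (nrm v : ℂ) ^ (-s)))
              (Complex.exp (g s))) ∧
      ∀ i (ε : ℝ), 0 < ε → ∃ C : ℝ, ∀ x : ℕ,
        |({v : Pl K | nrm v < x ∧ v ∈ Q i ∧ Violates T (α v) (α v)⁻¹}.ncard : ℝ) -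
          (1 / W k T) * ({v : Pl K | nrm v < x ∧ v ∈ Q i}.ncard : ℝ)| ≤
          C * ((x : ℝ) + 1) ^ (1 / 2 + ε)) ∧
    W k 2 = (k + 1) * (k + 2) * (k + 3) / 6 := by
  refine ⟨fun S α β h1 h2 => ?_, fun F Q δ hδ => ?_, ?_⟩
  · -- the upper bound
    rw [W_eq]
    have hne : ∀ v, α v * β v ≠ 0 := by
      intro v
      rcases h1.unitary v with ⟨e1, e2⟩ | ⟨ω, r, e1, e2, e3, e4⟩
      · refine mul_ne_zero (fun h => ?_) fun h => ?_
        · rw [h, norm_zero] at e1; exact zero_ne_one e1
        · rw [h, norm_zero] at e2; exact zero_ne_one e2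
      · have hω : ω ≠ 0 := fun h => by
          rw [h, norm_zero] at e1; exact zero_ne_one e1
        have hr : (r : ℂ) ≠ 0 := by exact_mod_cast e2.ne'
        rw [e3, e4]
        exact mul_ne_zero (mul_ne_zero hω hr) (mul_ne_zero hω (inv_ne_zero hr))
    have hαβ : ∀ v, ‖α v * β v‖ = 1 := by
      intro v
      rcases h1.unitary v with ⟨e1, e2⟩ | ⟨ω, r, e1, e2, e3, e4⟩
      · rw [norm_mul, e1, e2, one_mul]
      · have hr : (r : ℂ) ≠ 0 := by exact_mod_cast e2.ne'
        rw [e3, e4, show ω * (r : ℂ) * (ω * (r : ℂ)⁻¹) = ω * ω * ((r : ℂ) * (r : ℂ)⁻¹) by ring,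
          mul_inv_cancel₀ hr, mul_one, norm_mul, e1, one_mul]
    set η : Pl K → ℂ := fun v => (α v * β v) ^ (1 / 2 : ℂ) with hη_def
    have hη : ∀ v, η v ^ 2 = α v * β v := by
      intro v
      simp only [hη_def]
      rw [← Complex.cpow_nat_mul]
      norm_num
    have hη1 : ∀ v, ‖η v‖ = 1 := by
      intro v
      have e1 : ‖η v‖ ^ 2 = 1 := by rw [← norm_pow, hη, hαβ]
      have e2 := norm_nonneg (η v)
      nlinarith
    have hη0 : ∀ v, η v ≠ 0 := fun v h => by
      have := hη1 v
      rw [h, norm_zero] at this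
      exact zero_ne_one this
    have hinv : ∀ v, (α v / η v)⁻¹ = β v / η v := by
      intro v
      have hα : α v ≠ 0 := left_ne_zero_of_mul (hne v)
      rw [inv_div, div_eq_div_iff hα (hη0 v), ← sq, hη, mul_comm]
    have hna : ∀ v, ‖α v / η v‖ = ‖α v‖ := fun v => by rw [norm_div, hη1, div_one]
    have hnb : ∀ v, ‖(α v / η v)⁻¹‖ = ‖β v‖ := fun v => by rw [hinv, norm_div, hη1, div_one]
    have htr : ∀ v, ‖α v / η v + (α v / η v)⁻¹‖ = ‖α v + β v‖ := fun v => by
      rw [hinv, ← add_div, norm_div, hη1, div_one]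
    obtain ⟨C, hC⟩ := (places (K := K)).upper k T hT S (fun v => α v / η v)
      (fun v => div_ne_zero (left_ne_zero_of_mul (hne v)) (hη0 v)) (fun v => by
        rcases h1.unitary v with ⟨e1, e2⟩ | ⟨ω, r, e1, e2, e3, e4⟩
        · left
          rw [hna, e1]
        · right
          have hω : ω ≠ 0 := fun h => by
            rw [h, norm_zero] at e1; exact zero_ne_one e1
          have hr : (r : ℂ) ≠ 0 := by exact_mod_cast e2.ne'
          have e5 : η v ^ 2 = ω ^ 2 := by
            rw [hη, e3, e4, show ω * (r : ℂ) * (ω * (r : ℂ)⁻¹) = ω ^ 2 * ((r : ℂ) * (r : ℂ)⁻¹) by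
              ring, mul_inv_cancel₀ hr, mul_one]
          rcases sq_eq_sq_iff_eq_or_eq_neg.1 e5 with e6 | e6
          · rw [e3, e6, mul_div_cancel_left₀ _ hω, Complex.ofReal_im]
          · rw [e3, e6, div_neg, mul_div_cancel_left₀ _ hω, ← Complex.ofReal_neg,
              Complex.ofReal_im])
      (fun v => by
        rw [hna, hnb]
        exact h1.bound v)
      (fun m hm1 hm2 G hG1 hG2 => by
        obtain ⟨e1, c, hc, e2⟩ := h2 m hm1 hm2
        have e3 : ∀ s : ℝ, (fun v => G v s) = fun v => if v ∈ S then (1 : ℂ) else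
            symFactor (2 * m) (α v) (β v) ((α v * β v)⁻¹ ^ m * (nrm v : ℂ) ^ (-(s : ℂ))) := by
          intro s
          funext v
          by_cases hv : v ∈ S
          · rw [if_pos hv, hG1 v hv]
          · rw [if_neg hv, hG2 v hv, sym_even m _ _ (η v) _ (hη v) (hη0 v)]
            rfl
        refine ⟨fun s hs => ?_, c, hc, ?_⟩
        · rw [e3 s]
          exact e1 s hs
        · simp only [e3]
          exact e2)
    refine ⟨C, ?_⟩
    filter_upwards [hC] with s hs
    have e1 := hs (fun v => if Violates T (α v) (β v) then (nrm v : ℝ) ^ (-s) else 0)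
      (fun v hv => by
        rw [hna, htr] at hv
        have e2 : Violates T (α v) (β v) := by
          refine ⟨?_, hv.2⟩
          by_contra h3
          rcases h1.unitary v with ⟨e1, e2⟩ | ⟨ω, r, e1, e2, e3, e4⟩
          · exact hv.1 e1
          · have e5 : α v + β v = ω * ((r + r⁻¹ : ℝ) : ℂ) := by
              rw [e3, e4]
              push_cast
              ring
            have e6 : ‖α v‖ = r := by
              rw [e3, norm_mul, e1, one_mul, Complex.norm_real, Real.norm_eq_abs, abs_of_pos e2]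
            have e7 : 0 < r⁻¹ := inv_pos.2 e2
            rw [e5, norm_mul, e1, one_mul, Complex.norm_real, Real.norm_eq_abs,
              abs_of_pos (by linarith)] at h3
            rw [e6] at hv
            have e8 : r * r⁻¹ = 1 := mul_inv_cancel₀ e2.ne'
            have e9 : (r - 1) ^ 2 ≤ 0 := by
              push Not at h3
              nlinarith
            have e10 : r - 1 = 0 := by
              have := sq_nonneg (r - 1)
              exact pow_eq_zero_iff two_ne_zero |>.1 (le_antisymm e9 this)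
            exact hv.1 (by linarith)
        rw [if_pos e2]
        rfl)
      (fun v hv => by
        rw [hna, htr] at hv
        refine if_neg fun h3 => hv ⟨fun h4 => ?_, h3.2⟩
        rcases h1.unitary v with ⟨e1, e2⟩ | ⟨ω, r, e1, e2, e3, e4⟩
        · have := norm_add_le (α v) (β v)
          rw [e1, e2] at this
          have := h3.1
          linarith
        · have e6 : ‖α v‖ = r := by
            rw [e3, norm_mul, e1, one_mul, Complex.norm_real, Real.norm_eq_abs, abs_of_pos e2]
          rw [h4] at e6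
          have h5 := h3.1
          rw [e3, e4, ← e6] at h5
          norm_num at h5
          have := norm_add_le ω ω
          rw [e1] at this
          linarith)
    exact e1
  · rw [W_eq]
    obtain ⟨α, a1, a2, a3, a4, a5, a6, a7⟩ := (places (K := K)).lower k hk T hT (seq F) Q δ hδ
    refine ⟨α, ⟨fun v => ?_, a3⟩, fun S m hm1 hm2 => ?_, a4, a5, fun i => ?_, fun i ε hε => ?_⟩
    · rcases a2 v with e1 | e1
      · left
        rw [norm_inv, e1, inv_one]
        exact ⟨rfl, rfl⟩
      · right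
        obtain ⟨x, hx⟩ : ∃ x : ℝ, α v = x := ⟨(α v).re, Complex.ext rfl (by simpa using e1)⟩
        have hx0 : x ≠ 0 := by
          rintro rfl
          exact a1 v (by rw [hx, Complex.ofReal_zero])
        rcases lt_or_gt_of_ne hx0 with h3 | h3
        · refine ⟨-1, -x, by rw [norm_neg, norm_one], by linarith, by rw [hx]; push_cast; ring, ?_⟩
          rw [hx]
          push_cast
          rw [inv_neg]
          ring
        · exact ⟨1, x, norm_one, h3, by rw [hx, one_mul], by rw [hx, one_mul]⟩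
    · obtain ⟨S₀, e1, e2⟩ := a6 0
      have e3 : S₀ = ∅ := e1 (fun v l => norm_one.le)
      obtain ⟨g, g1, g2⟩ := e2 S (by rw [e3]; exact Finset.empty_subset _) (2 * m) (by omega)
        (by omega)
      have h3 : ∀ s : ℝ, 1 < s → HasProd (fun v => if v ∈ S then (1 : ℂ) else
          symFactor (2 * m) (α v) (α v)⁻¹ ((α v * (α v)⁻¹)⁻¹ ^ m * (nrm v : ℂ) ^ (-(s : ℂ))))
          (Complex.exp (g s)) := by
        intro s hs
        refine (g2 (s : ℂ) (by simpa using hs)).congr_fun ?_ |> fun h => h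
        intro v
        by_cases hv : v ∈ S
        · rw [if_pos hv, if_pos hv]
        · rw [if_neg hv, if_neg hv, mul_inv_cancel₀ (a1 v), inv_one, one_pow, one_mul,
            sym_eq _ _ _ (a1 v)]
          have e4 : ∀ z : ℂ, ∏ j : Fin 1, Pool.Agent.H414.GRC.symFactor (2 * m) (α v)
              ((triv (K := K)).B v j * z) = Pool.Agent.H414.GRC.symFactor (2 * m) (α v) z := by
            intro z
            rw [Fin.prod_univ_one]
            congr 1
            exact one_mul z
          exact (e4 _).symm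
      refine ⟨fun s hs => (h3 s hs).multipliable, Complex.exp (g 1), Complex.exp_ne_zero _, ?_⟩
      have h4 : Tendsto (fun s : ℝ => Complex.exp (g s)) (𝓝[>] 1) (𝓝 (Complex.exp (g 1))) := by
        refine (Complex.continuous_exp.tendsto _).comp ?_
        have h5 : ContinuousAt g 1 := by
          refine (g1.differentiableAt ?_).continuousAt
          refine (isOpen_lt continuous_const Complex.continuous_re).mem_nhds ?_
          show (1 / 2 : ℝ) < (1 : ℂ).re
          norm_num
        have h6 : Tendsto (fun s : ℝ => (s : ℂ)) (𝓝[>] 1) (𝓝 1) := by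
          have := Complex.continuous_ofReal.tendsto 1
          rw [Complex.ofReal_one] at this
          exact this.mono_left nhdsWithin_le_nhds
        exact h5.tendsto.comp h6
      refine h4.congr' ?_
      filter_upwards [self_mem_nhdsWithin] with s hs
      exact (h3 s hs).tprod_eq.symm
    · obtain ⟨S₀, e1, e2⟩ := a6 (i + 1)
      refine ⟨S₀, e1, fun S hS n hn1 hn2 => ?_⟩
      obtain ⟨g, g1, g2⟩ := e2 S hS n hn1 hn2
      refine ⟨g, g1, fun s hs => ?_⟩
      refine (g2 s hs).congr_fun ?_ |> fun h => h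
      intro v
      by_cases hv : v ∈ S
      · rw [if_pos hv, if_pos hv]
      · rw [if_neg hv, if_neg hv]
        exact Finset.prod_congr rfl fun j _ => sym_eq _ _ _ (a1 v)
    · obtain ⟨C, hC⟩ := a7 i ε hε
      refine ⟨C, fun x => ?_⟩
      rw [range_card, range_card]
      refine le_trans (le_of_eq ?_) (hC x)
      congr 2
      refine sum_congr rfl fun m _ => sum_congr rfl fun v _ => ?_
      have e1 : Violates T (α v) (α v)⁻¹ ↔ (‖α v‖ ≠ 1 ∧ T ≤ ‖α v + (α v)⁻¹‖) := by
        constructor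
        · rintro ⟨h1, h2⟩
          refine ⟨fun h3 => ?_, h2⟩
          have h4 := norm_add_le (α v) (α v)⁻¹
          rw [norm_inv, h3, inv_one] at h4
          linarith
        · rintro ⟨h1, h2⟩
          refine ⟨?_, h2⟩
          rcases a2 v with e1 | e1
          · exact absurd e1 h1
          · obtain ⟨y, hy⟩ : ∃ y : ℝ, α v = y := ⟨(α v).re, Complex.ext rfl (by simpa using e1)⟩
            have hy0 : y ≠ 0 := by
              rintro rfl
              exact a1 v (by rw [hy, Complex.ofReal_zero])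
            rw [hy, Complex.norm_real, Real.norm_eq_abs] at h1
            rw [hy, ← Complex.ofReal_inv, ← Complex.ofReal_add, Complex.norm_real,
              Real.norm_eq_abs]
            have h5 : |y + y⁻¹| = |y| + |y|⁻¹ := by
              rw [← abs_inv]
              exact (abs_add_eq_add_abs_iff y y⁻¹).2 (by
                rcases lt_or_gt_of_ne hy0 with h6 | h6
                · exact Or.inr ⟨h6.le, (inv_lt_zero.2 h6).le⟩
                · exact Or.inl ⟨h6.le, (inv_pos.2 h6).le⟩)
            rw [h5]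
            have h7 : 0 < |y| := abs_pos.2 hy0
            have h8 : |y| * |y|⁻¹ = 1 := mul_inv_cancel₀ h7.ne'
            have h9 : 0 < (|y| - 1) ^ 2 := by
              have : |y| - 1 ≠ 0 := fun h => h1 (by linarith)
              positivity
            have h10 : 0 < |y|⁻¹ := inv_pos.2 h7
            nlinarith
      by_cases hQ : v ∈ Q i
      · by_cases hv : Violates T (α v) (α v)⁻¹
        · rw [if_pos ⟨hQ, hv⟩, if_pos ⟨hQ, e1.1 hv⟩]
        · rw [if_neg fun h => hv h.2, if_neg fun h => hv (e1.2 h.2)]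
      · rw [if_neg fun h => hQ h.1, if_neg fun h => hQ h.1]
  · rw [W_eq]
    exact Pool.Agent.H414.GRC.W_two k

end Pool.Agent.Results.MP_4819b8_nt.SymmetricPowerStrength
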